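import Mathlib
import Pool.Agent.R222.Polar.Limit

/-!
# The value of the limit of the normalised polarization constants

For every compact `K ⊆ [0,1]` of positive Lebesgue measure (in particular every fat Cantor set) and
every `s > 1`, the `N`-point Riesz polarization constant of `K` divided by `N ^ s` converges to
`2 (2 ^ s - 1) ζ(s) λ(K) ^ (-s)`.

Idea of the proof. Upper bound: the distribution function of the normalised Lebesgue measure of `K`
maps `K` onto the circle and is `1/λ(K)`-Lipschitz, so the polarization inequality for the circle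
applies. Lower bound: a grid of mesh about `λ(K)/N`, with points moved into `K`, completed by
finer grids near the places where the grid meets gaps of `K`; few such places are needed because
the neighbourhoods of `K` have measure tending to `λ(K)`.
-/

set_option autoImplicit false

open Filter Topology MeasureTheory
open scoped ENNReal

namespace Pool.Agent.Results.MP_efb919_an.LimitValue

open Pool.Agent.R222.Polar

lemma tsum_half {s : ℝ} (hs : 1 < s) :
    ∑' k : ℕ, 2 * ((k:ℝ) + 1 / 2) ^ (-s) = 2 * (2 ^ s - 1) * (riemannZeta (s:ℂ)).re := by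
  have hZ : (riemannZeta (s:ℂ)).re = ∑' n : ℕ, 1 / ((n:ℝ) + 1) ^ s := by
    rw [zeta_eq_tsum_one_div_nat_add_one_cpow (by simpa using hs)]
    have : ∀ n : ℕ, (1:ℂ) / ((n:ℂ) + 1) ^ (s:ℂ) = ((1 / ((n:ℝ) + 1) ^ s : ℝ) : ℂ) := by
      intro n
      rw [Complex.ofReal_div, Complex.ofReal_cpow (by positivity)]
      push_cast
      rfl
    rw [tsum_congr this, ← Complex.ofReal_tsum, Complex.ofReal_re]
  set g : ℕ → ℝ := fun n => 1 / ((n:ℝ) + 1) ^ s with hg
  have hgs : Summable g := by
    have h1 := (Real.summable_one_div_nat_add_rpow 1 s).2 hs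
    refine h1.congr fun n => ?_
    rw [abs_of_nonneg (by positivity)]
  have he : Summable fun k => g (2 * k) := hgs.comp_injective fun a b h => by simpa using h
  have ho : Summable fun k => g (2 * k + 1) := hgs.comp_injective fun a b h => by simpa using h
  have h1 := tsum_even_add_odd he ho
  have h2 : ∀ k, g (2 * k + 1) = (2:ℝ) ^ (-s) * g k := by
    intro k
    simp only [hg]
    push_cast
    rw [show (2:ℝ) * k + 1 + 1 = 2 * (k + 1) by ring, Real.mul_rpow (by norm_num) (by positivity),
      Real.rpow_neg (by norm_num)]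
    field_simp
  have h3 : ∀ k : ℕ, 2 * ((k:ℝ) + 1 / 2) ^ (-s) = 2 * 2 ^ s * g (2 * k) := by
    intro k
    simp only [hg]
    push_cast
    rw [show (k:ℝ) + 1 / 2 = (2 * k + 1) / 2 by ring, Real.div_rpow (by positivity) (by norm_num),
      Real.rpow_neg (by positivity), Real.rpow_neg (by norm_num)]
    field_simp
  rw [tsum_congr h3, tsum_mul_left, hZ]
  rw [tsum_congr h2, tsum_mul_left] at h1
  have h4 : (2:ℝ) ^ s * 2 ^ (-s) = 1 := by
    rw [← Real.rpow_add (by norm_num)]; simp
  have h5 : ∑' k, g (2 * k) = (1 - 2 ^ (-s)) * ∑' k, g k := by linarith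
  rw [h5]
  linear_combination (-2 * (∑' k, g k)) * h4

lemma cst_eq {s : ℝ} (hs : 1 < s) :
    cst s = ENNReal.ofReal (2 * (2 ^ s - 1) * (riemannZeta (s:ℂ)).re) := by
  rw [← tsum_half hs, ← (cst_hasSum (s := s)).tsum_eq, ENNReal.ofReal_tsum_of_nonneg
    (fun k => by positivity)]
  · refine tsum_congr fun k => ?_
    rw [ENNReal.ofReal_mul (by norm_num), ENNReal.ofReal_rpow_of_pos (by positivity)]
    norm_num
  · have h1 : Summable (fun k : ℕ => 1 / |(k:ℝ) + 1 / 2| ^ s) :=
      (Real.summable_one_div_nat_add_rpow (1 / 2) s).2 hs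
    refine (h1.mul_left 2).congr fun k => ?_
    rw [abs_of_nonneg (by positivity), Real.rpow_neg (by positivity), one_div]

/-- For every compact `K ⊆ [0,1]` of positive Lebesgue measure and every `s > 1`, the polarization
constants satisfy `pol_s(K;N) / N ^ s → 2 (2 ^ s - 1) ζ(s) λ(K) ^ (-s)`. -/
theorem result :
    ∀ K : Set ℝ, K ⊆ Set.Icc (0 : ℝ) 1 → IsCompact K → 0 < volume K →
      ∀ s : ℝ, 1 < s →
        Tendsto
          (fun N : ℕ =>
            (⨆ (x : Fin N → ℝ) (_ : ∀ i, x i ∈ K),
                ⨅ y ∈ K, ∑ j, (ENNReal.ofReal |y - x j|) ^ (-s)) /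
              ((N : ℝ≥0∞) ^ s))
          atTop
          (𝓝 (ENNReal.ofReal
            (2 * (2 ^ s - 1) * (riemannZeta (s:ℂ)).re * ((volume K).toReal) ^ (-s)))) := by
  intro K hK01 hK hpos s hs
  have hne : K.Nonempty := by
    rw [Set.nonempty_iff_ne_empty]; rintro rfl; simp at hpos
  have h := limit hK01 hK hne hpos hs
  have hfin : volume K ≠ ⊤ := hK.measure_lt_top.ne
  have hℓ : 0 < (volume K).toReal := ENNReal.toReal_pos hpos.ne' hfin
  convert h using 2
  rw [cst_eq hs, ENNReal.ofReal_mul' (by positivity), mul_comm]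
  congr 1
  rw [← ENNReal.ofReal_rpow_of_pos hℓ, ENNReal.ofReal_toReal hfin]

end Pool.Agent.Results.MP_efb919_an.LimitValue
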